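import Mathlib

/-!
# MP_2d49c6_co: every admissible parameter occurs with FAT chromatic number exactly `k`

For every `k ≥ 2` and every rational `0 < α ≤ 1 / (k - 1)` there is a finite connected graph whose
FAT chromatic number is exactly `k` and which has a FAT `k`-colouring with parameter `α`.

The graph has vertex set `Fin k × ZMod P` for a large prime `P`; `(i, x)` and `(i, y)` are adjacent
if `y - x ∈ T`, and `(i, x)` and `(j, y)` with `i ≠ j` are adjacent if `y - x ∈ S`, for disjoint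
symmetric sets `S`, `T` with `S ∪ T ∪ {0} ≠ ZMod P`. The classes of a FAT colouring give
eigenvectors of the adjacency matrix with an integer eigenvalue, and these are constant on
every `{i} × ZMod P` because the cyclotomic polynomial of prime order is irreducible.
-/

set_option autoImplicit false

namespace Pool.Agent.Results.MP_2d49c6_co.EveryParameter

open Finset

/-- `c` is a FAT `k`-colouring of `G` with parameter `α ∈ [0, 1]`: all `k` classes are nonempty,
every vertex has exactly `α * deg` neighbours in each class other than its own, and exactly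
`β * deg` neighbours in its own class, where `β = 1 - (k - 1) * α`. -/
structure IsFAT {V : Type} (G : SimpleGraph V) (k : ℕ) (c : V → Fin k) (α : ℝ) : Prop where
  surj : Function.Surjective c
  nonneg : 0 ≤ α
  le_one : α ≤ 1
  other : ∀ (v : V) (i : Fin k), c v ≠ i →
    ({u | G.Adj v u ∧ c u = i}.ncard : ℝ) = α * ({u | G.Adj v u}.ncard : ℝ)
  own : ∀ v : V,
    ({u | G.Adj v u ∧ c u = c v}.ncard : ℝ) = (1 - ((k : ℝ) - 1) * α) * ({u | G.Adj v u}.ncard : ℝ)

/-! ### Cyclotomic input -/

theorem const_of_sum {P : ℕ} (hP : P.Prime) {ζ : ℂ} (hζ : IsPrimitiveRoot ζ P)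
    [NeZero P] (c : ZMod P → ℚ) (h : ∑ x : ZMod P, (c x : ℂ) * ζ ^ x.val = 0) :
    ∀ x y, c x = c y := by
  obtain ⟨p, rfl⟩ : ∃ p, P = p + 1 := ⟨P - 1, by have := hP.one_lt; omega⟩
  exact (hζ.sum_eq_zero_iff_forall_eq hP (fun i : Fin (p + 1) => c i)).1 h

theorem pow_val_add {P : ℕ} [NeZero P] {ζ : ℂ} (hζ : ζ ^ P = 1) (x y : ZMod P) :
    ζ ^ (x + y).val = ζ ^ x.val * ζ ^ y.val := by
  rw [ZMod.val_add, ← pow_add, ← pow_eq_pow_mod _ hζ]

/-! ### Symmetric sets -/

/-- The elements `±(i + 1)`, `a ≤ i < b`, of `ZMod P`. -/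
def R (P a b : ℕ) : Finset (ZMod P) :=
  (Finset.Ico a b).image (fun i => ((i + 1 : ℕ) : ZMod P)) ∪
    (Finset.Ico a b).image (fun i => -((i + 1 : ℕ) : ZMod P))

theorem mem_R {P a b : ℕ} {x : ZMod P} : x ∈ R P a b ↔
    ∃ i, a ≤ i ∧ i < b ∧ (x = ((i + 1 : ℕ) : ZMod P) ∨ x = -((i + 1 : ℕ) : ZMod P)) := by
  unfold R
  rw [Finset.mem_union, Finset.mem_image, Finset.mem_image]
  constructor
  · rintro (⟨i, hi, rfl⟩ | ⟨i, hi, rfl⟩)
    · rw [Finset.mem_Ico] at hi
      exact ⟨i, hi.1, hi.2, Or.inl rfl⟩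
    · rw [Finset.mem_Ico] at hi
      exact ⟨i, hi.1, hi.2, Or.inr rfl⟩
  · rintro ⟨i, h1, h2, rfl | rfl⟩
    · exact Or.inl ⟨i, Finset.mem_Ico.2 ⟨h1, h2⟩, rfl⟩
    · exact Or.inr ⟨i, Finset.mem_Ico.2 ⟨h1, h2⟩, rfl⟩

theorem neg_mem_R {P a b : ℕ} {x : ZMod P} (h : x ∈ R P a b) : -x ∈ R P a b := by
  rw [mem_R] at h ⊢
  obtain ⟨i, h1, h2, rfl | rfl⟩ := h
  · exact ⟨i, h1, h2, Or.inr rfl⟩
  · exact ⟨i, h1, h2, Or.inl (by rw [neg_neg])⟩

theorem cast_eq {P i j : ℕ} (hi : i < P) (hj : j < P) (h : (i : ZMod P) = (j : ZMod P)) :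
    i = j := by
  rw [ZMod.natCast_eq_natCast_iff'] at h
  rwa [Nat.mod_eq_of_lt hi, Nat.mod_eq_of_lt hj] at h

theorem cast_ne_neg {P i j : ℕ} (h0 : 0 < i + j) (hij : i + j < P) :
    (i : ZMod P) ≠ -(j : ZMod P) := by
  intro h
  have h1 : ((i + j : ℕ) : ZMod P) = 0 := by
    push_cast
    rw [h]
    ring
  rw [ZMod.natCast_eq_zero_iff] at h1
  exact absurd (Nat.le_of_dvd h0 h1) (by omega)

theorem card_R {P a b : ℕ} (hb : 2 * b < P) : (R P a b).card = 2 * (b - a) := by
  unfold R
  rw [Finset.card_union_of_disjoint, Finset.card_image_of_injOn, Finset.card_image_of_injOn,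
    Nat.card_Ico]
  · ring
  · intro i hi j hj h
    rw [Finset.coe_Ico, Set.mem_Ico] at hi hj
    have h' := neg_injective h
    have := cast_eq (P := P) (by omega) (by omega) h'
    omega
  · intro i hi j hj h
    rw [Finset.coe_Ico, Set.mem_Ico] at hi hj
    have := cast_eq (P := P) (by omega) (by omega) h
    omega
  · rw [Finset.disjoint_left]
    rintro x hx hx'
    rw [Finset.mem_image] at hx hx'
    obtain ⟨i, hi, rfl⟩ := hx
    obtain ⟨j, hj, h⟩ := hx'
    rw [Finset.mem_Ico] at hi hj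
    exact cast_ne_neg (P := P) (by omega) (by omega) h.symm

theorem zero_notMem_R {P a b : ℕ} (hb : 2 * b < P) : (0 : ZMod P) ∉ R P a b := by
  rw [mem_R]
  rintro ⟨i, h1, h2, h | h⟩
  · have := cast_eq (P := P) (i := 0) (j := i + 1) (by omega) (by omega) (by simpa using h)
    omega
  · have h' : ((i + 1 : ℕ) : ZMod P) = 0 := by
      rw [← neg_eq_zero]; exact h.symm
    have := cast_eq (P := P) (i := 0) (j := i + 1) (by omega) (by omega) (by simpa using h'.symm)
    omega

theorem notMem_R {P a b i : ℕ} (hb : b ≤ i ∨ i < a) (hi : 2 * (i + 1) < P) (hb2 : 2 * b < P) :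
    ((i + 1 : ℕ) : ZMod P) ∉ R P a b := by
  rw [mem_R]
  rintro ⟨j, h1, h2, h | h⟩
  · have := cast_eq (P := P) (by omega) (by omega) h
    omega
  · exact cast_ne_neg (P := P) (by omega) (by omega) h

/-! ### The graph -/

/-- Data of the construction. -/
structure Data (k P : ℕ) where
  S : Finset (ZMod P)
  T : Finset (ZMod P)
  negS : ∀ x ∈ S, -x ∈ S
  negT : ∀ x ∈ T, -x ∈ T
  zeroT : (0 : ZMod P) ∉ T
  disj : ∀ x ∈ S, x ∉ T
  a : ZMod P
  ha : a ∈ S
  ha0 : a ≠ 0
  b : ZMod P
  hbS : b ∉ S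
  hbT : b ∉ T
  hb0 : b ≠ 0

variable {k P : ℕ}

/-- The graph on `Fin k × ZMod P`. -/
def Data.G (D : Data k P) : SimpleGraph (Fin k × ZMod P) where
  Adj u v := (u.1 = v.1 ∧ v.2 - u.2 ∈ D.T) ∨ (u.1 ≠ v.1 ∧ v.2 - u.2 ∈ D.S)
  symm := ⟨by
    rintro u v (⟨h1, h2⟩ | ⟨h1, h2⟩)
    · exact Or.inl ⟨h1.symm, by have := D.negT _ h2; rwa [neg_sub] at this⟩
    · exact Or.inr ⟨h1.symm, by have := D.negS _ h2; rwa [neg_sub] at this⟩⟩
  loopless := ⟨by
    rintro u (⟨_, h⟩ | ⟨h, _⟩)
    · rw [sub_self] at h; exact D.zeroT h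
    · exact h rfl⟩

theorem Data.adj_iff (D : Data k P) (u v : Fin k × ZMod P) : D.G.Adj u v ↔
    (u.1 = v.1 ∧ v.2 - u.2 ∈ D.T) ∨ (u.1 ≠ v.1 ∧ v.2 - u.2 ∈ D.S) := Iff.rfl

/-- Neighbours in the block `j`. -/
theorem Data.block_ncard (D : Data k P) (v : Fin k × ZMod P) (j : Fin k) :
    {u | D.G.Adj v u ∧ u.1 = j}.ncard = if v.1 = j then D.T.card else D.S.card := by
  obtain ⟨i, x⟩ := v
  have hinj : Function.Injective (fun t : ZMod P => ((j, x + t) : Fin k × ZMod P)) := by
    intro a b h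
    simpa using h
  by_cases h : i = j
  · subst h
    rw [if_pos rfl]
    have : {u | D.G.Adj (i, x) u ∧ u.1 = i} =
        (fun t : ZMod P => ((i, x + t) : Fin k × ZMod P)) '' (D.T : Set (ZMod P)) := by
      ext ⟨l, y⟩
      constructor
      · rintro ⟨⟨_, h2⟩ | ⟨h1, _⟩, h3⟩
        · have h3' : l = i := h3
          subst h3'
          exact ⟨y - x, h2, Prod.ext rfl (add_sub_cancel x y)⟩
        · exact absurd h3.symm h1
      · rintro ⟨t, ht, h3⟩
        rw [← h3]
        exact ⟨Or.inl ⟨rfl, by simpa using ht⟩, rfl⟩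
    rw [this, Set.ncard_image_of_injective _ hinj, Set.ncard_coe_finset]
  · rw [if_neg h]
    have : {u | D.G.Adj (i, x) u ∧ u.1 = j} =
        (fun t : ZMod P => ((j, x + t) : Fin k × ZMod P)) '' (D.S : Set (ZMod P)) := by
      ext ⟨l, y⟩
      constructor
      · rintro ⟨⟨h1, _⟩ | ⟨_, h2⟩, h3⟩
        · exact absurd (h1.trans h3) h
        · have h3' : l = j := h3
          subst h3'
          exact ⟨y - x, h2, Prod.ext rfl (add_sub_cancel x y)⟩
      · rintro ⟨t, ht, h3⟩
        rw [← h3]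
        exact ⟨Or.inr ⟨h, by simpa using ht⟩, rfl⟩
    rw [this, Set.ncard_image_of_injective _ hinj, Set.ncard_coe_finset]

/-- Sum over the neighbours. -/
theorem Data.sum_nbr [NeZero P] (D : Data k P) (f : Fin k × ZMod P → ℚ) (i : Fin k) (x : ZMod P)
    [DecidablePred fun u => D.G.Adj (i, x) u] :
    ∑ u ∈ Finset.univ.filter (fun u => D.G.Adj (i, x) u), f u =
      ∑ t ∈ D.T, f (i, x + t) + ∑ j ∈ Finset.univ.erase i, ∑ s ∈ D.S, f (j, x + s) := by
  classical
  have h1 : ∑ u ∈ Finset.univ.filter (fun u => D.G.Adj (i, x) u), f u =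
      ∑ j : Fin k, ∑ y : ZMod P, if D.G.Adj (i, x) (j, y) then f (j, y) else 0 := by
    rw [Finset.sum_filter, Fintype.sum_prod_type]
  rw [h1, ← Finset.add_sum_erase _ _ (Finset.mem_univ i)]
  congr 1
  · have h2 : ∀ y, (if D.G.Adj (i, x) (i, y) then f (i, y) else 0) =
        if y - x ∈ D.T then f (i, y) else 0 := by
      intro y
      have : D.G.Adj (i, x) (i, y) ↔ y - x ∈ D.T := by
        rw [D.adj_iff]; simp
      simp only [this]
    rw [Finset.sum_congr rfl (fun y _ => h2 y), ← Equiv.sum_comp (Equiv.addLeft x)]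
    simp only [Equiv.coe_addLeft, add_sub_cancel_left]
    rw [← Finset.sum_filter]
    congr 1
    ext t; simp
  · refine Finset.sum_congr rfl (fun j hj => ?_)
    have hji : i ≠ j := (Finset.ne_of_mem_erase hj).symm
    have h2 : ∀ y, (if D.G.Adj (i, x) (j, y) then f (j, y) else 0) =
        if y - x ∈ D.S then f (j, y) else 0 := by
      intro y
      have : D.G.Adj (i, x) (j, y) ↔ y - x ∈ D.S := by
        rw [D.adj_iff]; simp [hji]
      simp only [this]
    rw [Finset.sum_congr rfl (fun y _ => h2 y), ← Equiv.sum_comp (Equiv.addLeft x)]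
    simp only [Equiv.coe_addLeft, add_sub_cancel_left]
    rw [← Finset.sum_filter]
    congr 1
    ext t; simp

open Classical in
/-- **Rational eigenvectors with integer eigenvalue are constant on the blocks.** -/
theorem Data.const [NeZero P] (D : Data k P) (hP : P.Prime) (hk : 2 ≤ k)
    (f : Fin k × ZMod P → ℚ) (lam : ℤ)
    (hf : ∀ v, ∑ u ∈ Finset.univ.filter (fun u => D.G.Adj v u), f u = lam * f v) :
    ∀ i x y, f (i, x) = f (i, y) := by
  set ζ : ℂ := Complex.exp (2 * Real.pi * Complex.I / P) with hζdef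
  have hζ : IsPrimitiveRoot ζ P := Complex.isPrimitiveRoot_exp P hP.ne_zero
  have hζ1 := hζ.pow_eq_one
  let F : Fin k → ℂ := fun i => ∑ x : ZMod P, (f (i, x) : ℂ) * ζ ^ x.val
  let sg : Finset (ZMod P) → ℂ := fun A => ∑ t ∈ A, ζ ^ (-t).val
  -- shift
  have hshift : ∀ (j : Fin k) (t : ZMod P),
      ∑ x : ZMod P, (f (j, x + t) : ℂ) * ζ ^ x.val = ζ ^ (-t).val * F j := by
    intro j t
    rw [← Equiv.sum_comp (Equiv.addRight (-t))]
    simp only [Equiv.coe_addRight, neg_add_cancel_right, F, Finset.mul_sum]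
    refine Finset.sum_congr rfl (fun x _ => ?_)
    rw [pow_val_add hζ1]
    ring
  have hshiftA : ∀ (j : Fin k) (A : Finset (ZMod P)),
      ∑ x : ZMod P, (∑ t ∈ A, (f (j, x + t) : ℂ)) * ζ ^ x.val = sg A * F j := by
    intro j A
    simp only [Finset.sum_mul, sg]
    rw [Finset.sum_comm]
    refine Finset.sum_congr rfl (fun t _ => ?_)
    exact hshift j t
  -- transform of the eigenvector equation
  have heq : ∀ i, sg D.T * F i + sg D.S * (∑ j, F j - F i) = lam * F i := by
    intro i
    have h1 : ∀ x, ((∑ t ∈ D.T, f (i, x + t) +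
        ∑ j ∈ Finset.univ.erase i, ∑ s ∈ D.S, f (j, x + s) : ℚ) : ℂ) = lam * (f (i, x) : ℂ) := by
      intro x
      rw [← D.sum_nbr f i x, hf (i, x)]
      push_cast
      ring
    have h2 : ∑ x : ZMod P, ((∑ t ∈ D.T, f (i, x + t) +
        ∑ j ∈ Finset.univ.erase i, ∑ s ∈ D.S, f (j, x + s) : ℚ) : ℂ) * ζ ^ x.val =
        lam * F i := by
      simp only [h1, F, Finset.mul_sum]
      refine Finset.sum_congr rfl (fun x _ => by ring)
    rw [← h2]
    push_cast
    simp only [add_mul, Finset.sum_add_distrib]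
    rw [hshiftA i D.T]
    congr 1
    have h3 : ∑ j, F j - F i = ∑ j ∈ Finset.univ.erase i, F j := by
      rw [← Finset.add_sum_erase _ _ (Finset.mem_univ i)]
      ring
    rw [h3, Finset.mul_sum]
    have h4 : ∀ x : ZMod P, (∑ j ∈ Finset.univ.erase i, ∑ s ∈ D.S, (f (j, x + s) : ℂ)) *
        ζ ^ x.val = ∑ j ∈ Finset.univ.erase i, (∑ s ∈ D.S, (f (j, x + s) : ℂ)) * ζ ^ x.val := by
      intro x
      rw [Finset.sum_mul]
    rw [Finset.sum_congr rfl (fun x _ => h4 x), Finset.sum_comm]
    refine Finset.sum_congr rfl (fun j _ => ?_)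
    rw [hshiftA j D.S]
  -- nonvanishing
  have hnon : ∀ m : ℚ, m ≠ 0 → sg D.T + m * sg D.S - lam ≠ 0 := by
    intro m hm h0
    let c : ZMod P → ℚ := fun x => (if -x ∈ D.T then 1 else 0) + (if -x ∈ D.S then m else 0) -
      (if x = 0 then lam else 0)
    have h1 : ∑ x : ZMod P, (c x : ℂ) * ζ ^ x.val = 0 := by
      rw [← h0]
      have e0 : ∀ x : ZMod P, (c x : ℂ) * ζ ^ x.val =
          (if -x ∈ D.T then ζ ^ x.val else 0) + m * (if -x ∈ D.S then ζ ^ x.val else 0) -
            (if x = 0 then (lam : ℂ) else 0) := by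
        intro x
        simp only [c]
        by_cases hx : x = 0
        · subst hx
          simp only [neg_zero, if_true, ZMod.val_zero, pow_zero, mul_one]
          split_ifs <;> push_cast <;> ring
        · simp only [hx, if_false]
          split_ifs <;> push_cast <;> ring
      rw [Finset.sum_congr rfl (fun x _ => e0 x)]
      rw [Finset.sum_sub_distrib, Finset.sum_add_distrib, ← Finset.mul_sum]
      have e1 : ∀ A : Finset (ZMod P), ∑ x : ZMod P, (if -x ∈ A then ζ ^ x.val else 0) = sg A := by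
        intro A
        rw [← Equiv.sum_comp (Equiv.neg (ZMod P))]
        simp only [Equiv.neg_apply, neg_neg, sg]
        rw [← Finset.sum_filter]
        congr 1
        ext t; simp
      rw [e1, e1]
      congr 1
      simp
    have h2 := const_of_sum hP hζ c h1 (-D.a) (-D.b)
    simp only [c, neg_neg, D.ha, D.hbS, D.hbT, D.disj _ D.ha, if_true, if_false, neg_eq_zero,
      D.ha0, D.hb0] at h2
    apply hm
    linarith
  -- conclusion
  have hsum : ∑ j, F j = 0 := by
    have h1 : ∑ i, (sg D.T * F i + sg D.S * (∑ j, F j - F i)) = ∑ i, (lam : ℂ) * F i :=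
      Finset.sum_congr rfl (fun i _ => heq i)
    rw [Finset.sum_add_distrib, ← Finset.mul_sum, ← Finset.mul_sum, ← Finset.mul_sum,
      Finset.sum_sub_distrib, Finset.sum_const, Finset.card_univ, Fintype.card_fin,
      nsmul_eq_mul] at h1
    have hk1 : ((k : ℚ) - 1) ≠ 0 := by
      have : (2 : ℚ) ≤ k := by exact_mod_cast hk
      intro h; linarith
    have h2 := hnon ((k : ℚ) - 1) hk1
    have h3 : (sg D.T + (((k : ℚ) - 1 : ℚ) : ℂ) * sg D.S - lam) * ∑ j, F j = 0 := by
      push_cast
      linear_combination h1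
    rcases mul_eq_zero.1 h3 with h | h
    · exact absurd h h2
    · exact h
  have hF : ∀ i, F i = 0 := by
    intro i
    have h1 := heq i
    rw [hsum] at h1
    have h2 := hnon (-1) (by norm_num)
    have h3 : (sg D.T + ((-1 : ℚ) : ℂ) * sg D.S - lam) * F i = 0 := by
      push_cast
      linear_combination h1
    rcases mul_eq_zero.1 h3 with h | h
    · exact absurd h h2
    · exact h
  intro i
  exact const_of_sum hP hζ (fun x => f (i, x)) (hF i)

/-! ### Connectedness -/

theorem Data.connected [NeZero P] (D : Data k P) (hP : P.Prime) (hP2 : P ≠ 2) (hk : 2 ≤ k) :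
    D.G.Connected := by
  have : Fact P.Prime := ⟨hP⟩
  -- two steps
  have hstep : ∀ (i : Fin k) (x : ZMod P), D.G.Reachable (i, x) (i, x + 2 * D.a) := by
    intro i x
    obtain ⟨j, hj⟩ : ∃ j : Fin k, i ≠ j := by
      have : Nontrivial (Fin k) := Fin.nontrivial_iff_two_le.2 hk
      obtain ⟨j, hj⟩ := exists_ne i
      exact ⟨j, hj.symm⟩
    have h1 : D.G.Adj (i, x) (j, x + D.a) := Or.inr ⟨hj, by simpa using D.ha⟩
    have h2 : D.G.Adj (j, x + D.a) (i, x + 2 * D.a) := Or.inr ⟨hj.symm, by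
      have : x + 2 * D.a - (x + D.a) = D.a := by ring
      show x + 2 * D.a - (x + D.a) ∈ D.S
      rw [this]; exact D.ha⟩
    exact h1.reachable.trans h2.reachable
  have hn : ∀ (i : Fin k) (n : ℕ) (x : ZMod P), D.G.Reachable (i, x) (i, x + n * (2 * D.a)) := by
    intro i n
    induction n with
    | zero => intro x; simp
    | succ n ih =>
      intro x
      refine (ih x).trans ?_
      have := hstep i (x + n * (2 * D.a))
      have e : x + ((n + 1 : ℕ) : ZMod P) * (2 * D.a) = x + n * (2 * D.a) + 2 * D.a := by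
        push_cast; ring
      rw [e]
      exact this
  have h2 : (2 : ZMod P) ≠ 0 := by
    intro h
    have h' : ((2 : ℕ) : ZMod P) = 0 := by exact_mod_cast h
    rw [ZMod.natCast_eq_zero_iff] at h'
    exact hP2 ((Nat.prime_dvd_prime_iff_eq hP Nat.prime_two).1 h')
  have ha : (2 * D.a : ZMod P) ≠ 0 := mul_ne_zero h2 D.ha0
  have hblock : ∀ (i : Fin k) (x y : ZMod P), D.G.Reachable (i, x) (i, y) := by
    intro i x y
    have := hn i ((y - x) / (2 * D.a)).val x
    rw [ZMod.natCast_val, ZMod.cast_id, div_mul_cancel₀ _ ha, add_sub_cancel] at this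
    exact this
  have hne : Nonempty (Fin k × ZMod P) := ⟨(⟨0, by omega⟩, 0)⟩
  refine SimpleGraph.Connected.mk ?_
  rintro ⟨i, x⟩ ⟨j, y⟩
  by_cases hij : i = j
  · subst hij
    exact hblock i x y
  · have h1 : D.G.Adj (i, x) (j, x + D.a) := Or.inr ⟨hij, by simpa using D.ha⟩
    exact h1.reachable.trans (hblock j _ _)

/-! ### FAT colourings -/

theorem Data.degree [NeZero P] (D : Data k P) (v : Fin k × ZMod P) :
    {u | D.G.Adj v u}.ncard = D.T.card + (k - 1) * D.S.card := by
  classical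
  have h1 : {u | D.G.Adj v u} = ⋃ j ∈ (Finset.univ : Finset (Fin k)),
      {u | D.G.Adj v u ∧ u.1 = j} := by
    ext u
    simp
  have h2 : {u | D.G.Adj v u}.ncard = ∑ j : Fin k, {u | D.G.Adj v u ∧ u.1 = j}.ncard := by
    have h3 : ∀ A : Set (Fin k × ZMod P), A.ncard = (Finset.univ.filter (fun u => u ∈ A)).card := by
      intro A
      rw [← Set.ncard_coe_finset]
      congr 1
      ext u; simp
    simp only [h3]
    rw [Finset.card_eq_sum_card_fiberwise (f := fun u => u.1) (t := Finset.univ)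
      (fun _ _ => Finset.mem_coe.2 (Finset.mem_univ _))]
    refine Finset.sum_congr rfl (fun j _ => ?_)
    congr 1
    ext u
    simp
  rw [h2, Finset.sum_congr rfl (fun j _ => D.block_ncard v j),
    ← Finset.add_sum_erase _ _ (Finset.mem_univ v.1), if_pos rfl]
  congr 1
  rw [Finset.sum_congr rfl (g := fun _ => D.S.card) (fun j hj => by
    rw [if_neg (Finset.ne_of_mem_erase hj).symm])]
  rw [Finset.sum_const, Finset.card_erase_of_mem (Finset.mem_univ _), Finset.card_univ,
    Fintype.card_fin, smul_eq_mul]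

/-- A FAT colouring with at least two colours is constant on every block. -/
theorem Data.fat_const [NeZero P] (D : Data k P) (hP : P.Prime) (hk : 2 ≤ k) {K : ℕ} (hK : 2 ≤ K)
    (c : Fin k × ZMod P → Fin K) (α : ℝ) (hc : IsFAT D.G K c α) :
    ∀ i x y, c (i, x) = c (i, y) := by
  classical
  intro i x y
  obtain ⟨b, hb⟩ : ∃ b : Fin K, b ≠ c (i, x) := by
    have : Nontrivial (Fin K) := Fin.nontrivial_iff_two_le.2 hK
    exact exists_ne _
  set a := c (i, x) with ha
  let f : Fin k × ZMod P → ℚ := fun u => (if c u = a then 1 else 0) - (if c u = b then 1 else 0)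
  let d : ℝ := ((D.T.card + (k - 1) * D.S.card : ℕ) : ℝ)
  have hcount : ∀ v (l : Fin K), (∑ u ∈ Finset.univ.filter (fun u => D.G.Adj v u),
      if c u = l then (1 : ℚ) else 0) = ({u | D.G.Adj v u ∧ c u = l}.ncard : ℚ) := by
    intro v l
    rw [← Finset.sum_filter, Finset.filter_filter, Finset.sum_const, nsmul_eq_mul, mul_one]
    congr 1
    rw [← Set.ncard_coe_finset]
    congr 1
    ext u; simp
  have hsum : ∀ v, (∑ u ∈ Finset.univ.filter (fun u => D.G.Adj v u), f u) =
      ({u | D.G.Adj v u ∧ c u = a}.ncard : ℚ) - ({u | D.G.Adj v u ∧ c u = b}.ncard : ℚ) := by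
    intro v
    simp only [f]
    rw [Finset.sum_sub_distrib, hcount, hcount]
  have hdeg : ∀ v, ({u | D.G.Adj v u}.ncard : ℝ) = d := by
    intro v; rw [D.degree v]
  let lam : ℤ := ({u | D.G.Adj (i, x) u ∧ c u = a}.ncard : ℤ) -
    ({u | D.G.Adj (i, x) u ∧ c u = b}.ncard : ℤ)
  have hlam : (lam : ℝ) = (1 - ((K : ℝ) - 1) * α) * d - α * d := by
    have h1 := hc.own (i, x)
    have h2 := hc.other (i, x) b hb.symm
    rw [hdeg] at h1 h2
    simp only [lam]
    push_cast
    rw [← h1, ← h2]
  have hf : ∀ v, ∑ u ∈ Finset.univ.filter (fun u => D.G.Adj v u), f u = lam * f v := by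
    intro v
    rw [hsum]
    have hR : (((({u | D.G.Adj v u ∧ c u = a}.ncard : ℚ) -
        ({u | D.G.Adj v u ∧ c u = b}.ncard : ℚ) : ℚ)) : ℝ) = ((lam * f v : ℚ) : ℝ) := by
      push_cast
      rw [hlam]
      by_cases h1 : c v = a
      · have e1 := hc.own v
        have e2 := hc.other v b (by rw [h1]; exact hb.symm)
        rw [hdeg] at e1 e2
        rw [h1] at e1
        rw [e1, e2]
        have : f v = 1 := by simp only [f, h1, if_true, hb.symm, if_false, sub_zero]
        rw [this]; push_cast; ring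
      · by_cases h2 : c v = b
        · have e1 := hc.own v
          have e2 := hc.other v a h1
          rw [hdeg] at e1 e2
          rw [h2] at e1
          rw [e1, e2]
          have : f v = -1 := by simp only [f, h2, if_true, hb, if_false, zero_sub]
          rw [this]; push_cast; ring
        · have e1 := hc.other v a h1
          have e2 := hc.other v b h2
          rw [hdeg] at e1 e2
          rw [e1, e2]
          have : f v = 0 := by simp only [f, h1, h2, if_false, sub_zero]
          rw [this]; push_cast; ring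
    exact_mod_cast hR
  have hconst := D.const hP hk f lam hf i x y
  have hx : f (i, x) = 1 := by
    simp only [f, ← ha, if_true, hb.symm, if_false, sub_zero]
  rw [hx] at hconst
  by_contra hne
  have hne' : ¬ c (i, y) = a := fun h => hne h.symm
  simp only [f, hne', if_false, zero_sub] at hconst
  split_ifs at hconst
  · norm_num at hconst
  · norm_num at hconst

/-- The maximum. -/
theorem Data.le_of_fat [NeZero P] (D : Data k P) (hP : P.Prime) (hk : 2 ≤ k) {K : ℕ}
    (c : Fin k × ZMod P → Fin K) (α : ℝ) (hc : IsFAT D.G K c α) : K ≤ k := by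
  rcases Nat.lt_or_ge K 2 with h | h
  · omega
  · have hconst := D.fat_const hP hk h c α hc
    have hsurj : Function.Surjective (fun i : Fin k => c (i, 0)) := by
      intro l
      obtain ⟨⟨i, x⟩, hx⟩ := hc.surj l
      exact ⟨i, by rw [← hx]; exact hconst i 0 x⟩
    simpa using Fintype.card_le_of_surjective _ hsurj

/-- The blocks form a FAT colouring. -/
theorem Data.fat [NeZero P] (D : Data k P) (hk : 2 ≤ k) (α : ℝ) (h0 : 0 ≤ α) (h1 : α ≤ 1)
    (hS : (D.S.card : ℝ) = α * ((D.T.card + (k - 1) * D.S.card : ℕ) : ℝ)) :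
    IsFAT D.G k Prod.fst α := by
  refine ⟨fun i => ⟨(i, 0), rfl⟩, h0, h1, ?_, ?_⟩
  · intro v i hv
    rw [D.block_ncard, if_neg hv, D.degree, ← hS]
  · intro v
    rw [D.block_ncard, if_pos rfl, D.degree]
    push_cast [Nat.cast_sub (show 1 ≤ k by omega)] at hS ⊢
    linear_combination (-((k : ℝ) - 1)) * hS

/-- **Full answer.** Let `k ≥ 2` and let `α` be a rational number with `0 < α ≤ 1 / (k - 1)`. There
is a finite connected graph with at least two vertices whose FAT chromatic number (the largest `K`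
for which there is a FAT `K`-colouring, with any parameter) is `k`, and which has a FAT
`k`-colouring with parameter `α`. -/
theorem result (k : ℕ) (hk : 2 ≤ k) (α : ℚ) (h0 : 0 < α) (h1 : α ≤ 1 / ((k : ℚ) - 1)) :
    ∃ (V : Type) (_ : Fintype V) (G : SimpleGraph V), 2 ≤ Fintype.card V ∧ G.Connected ∧
      IsGreatest {K : ℕ | ∃ (c : V → Fin K) (α' : ℝ), IsFAT G K c α'} k ∧
      ∃ c : V → Fin k, IsFAT G k c (α : ℝ) := by
  have hk1 : (1 : ℚ) ≤ (k : ℚ) - 1 := by
    have : (2 : ℚ) ≤ k := by exact_mod_cast hk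
    linarith
  -- numerator and denominator
  obtain ⟨p, hp⟩ : ∃ p : ℕ, (p : ℤ) = α.num := ⟨α.num.toNat, Int.toNat_of_nonneg (Rat.num_pos.2 h0).le⟩
  obtain ⟨q, hq⟩ : ∃ q : ℕ, q = α.den := ⟨_, rfl⟩
  have hp0 : 0 < p := by
    have := Rat.num_pos.2 h0
    omega
  have hq0 : 0 < q := by rw [hq]; exact α.den_pos
  have hqQ : (0 : ℚ) < q := by exact_mod_cast hq0
  have hα : α = p / q := by
    have h := Rat.num_div_den α
    rw [← hp, ← hq] at h
    rw [← h]
    push_cast
    rfl
  have hle : (k - 1) * p ≤ q := by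
    rw [hα, div_le_div_iff₀ hqQ (by linarith)] at h1
    have h2 : (((k - 1) * p : ℕ) : ℚ) ≤ (q : ℚ) := by
      push_cast [Nat.cast_sub (show 1 ≤ k by omega)]
      linarith
    exact_mod_cast h2
  obtain ⟨t, ht⟩ : ∃ t, t = q - (k - 1) * p := ⟨_, rfl⟩
  -- the prime
  obtain ⟨P, hPge, hP⟩ := Nat.exists_infinite_primes (2 * (t + p + 1) + 1)
  have : NeZero P := ⟨hP.ne_zero⟩
  let D : Data k P :=
    { S := R P t (t + p)
      T := R P 0 t
      negS := fun _ h => neg_mem_R h
      negT := fun _ h => neg_mem_R h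
      zeroT := zero_notMem_R (by omega)
      disj := by
        intro x hx hx'
        rw [mem_R] at hx
        obtain ⟨i, h1, h2, rfl | rfl⟩ := hx
        · exact notMem_R (Or.inl h1) (by omega) (by omega) hx'
        · have := neg_mem_R hx'
          rw [neg_neg] at this
          exact notMem_R (Or.inl h1) (by omega) (by omega) this
      a := ((t + 1 : ℕ) : ZMod P)
      ha := mem_R.2 ⟨t, le_rfl, by omega, Or.inl rfl⟩
      ha0 := by
        intro h
        have := cast_eq (P := P) (i := t + 1) (j := 0) (by omega) (by omega) (by simpa using h)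
        omega
      b := ((t + p + 1 : ℕ) : ZMod P)
      hbS := notMem_R (Or.inl le_rfl) (by omega) (by omega)
      hbT := notMem_R (Or.inl (by omega)) (by omega) (by omega)
      hb0 := by
        intro h
        have := cast_eq (P := P) (i := t + p + 1) (j := 0) (by omega) (by omega)
          (by simpa using h)
        omega }
  have hSc : D.S.card = 2 * p := by
    show (R P t (t + p)).card = 2 * p
    rw [card_R (by omega)]
    congr 1
    omega
  have hTc : D.T.card = 2 * t := by
    show (R P 0 t).card = 2 * t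
    rw [card_R (by omega)]
    rfl
  have hdeg : D.T.card + (k - 1) * D.S.card = 2 * q := by
    rw [hSc, hTc, ht]
    have : (k - 1) * (2 * p) = 2 * ((k - 1) * p) := by ring
    omega
  have hα1 : (α : ℝ) ≤ 1 := by
    have h2 : α ≤ 1 := h1.trans (by rw [div_le_one (by linarith)]; exact hk1)
    exact_mod_cast h2
  have hfat : IsFAT D.G k Prod.fst (α : ℝ) := by
    refine D.fat hk _ (by exact_mod_cast h0.le) hα1 ?_
    rw [hdeg, hSc, hα]
    push_cast
    have : (q : ℝ) ≠ 0 := by exact_mod_cast hq0.ne'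
    field_simp
  refine ⟨Fin k × ZMod P, inferInstance, D.G, ?_, D.connected hP (by omega) hk,
    ⟨⟨_, _, hfat⟩, ?_⟩, _, hfat⟩
  · rw [Fintype.card_prod, Fintype.card_fin, ZMod.card]
    have := hP.one_lt
    nlinarith
  · rintro K ⟨c, α', hc⟩
    exact D.le_of_fat hP hk c α' hc

end Pool.Agent.Results.MP_2d49c6_co.EveryParameter
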